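import Pool.Agent.N762.FP.Root2
import Pool.Agent.N808.PR.Abs
import Pool.Agent.W418.Z.Reg
import Pool.Agent.N102.TF.Mod

/-!
MP_4d1008_ag: regular models, proper over `ℤ`, in all dimensions, of the integral schemes of finite
type over a finite field `k` of characteristic `p` whose function fields are obtained from function
fields of surfaces and of varieties of bounded degree by finitely many steps, in any order, of the
following kinds: products; families of varieties of bounded degree; adjoining zeros of polynomials
of degree less than `p` with controlled discriminants; systems of linear equations between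
powers of arbitrary exponents `p ^ e` together with schön equations, whose coefficients are products
of the elements of the previous steps, and coverings of degree a power of `p` (Artin-Schreier
coverings, or given by `p`-th roots) by nondegenerate functions of such systems; radicals of
exponents prime to `p`.

The starting files contain two such theorems: `AdmissibleTowersFinite` on this problem (all the
operations except `system`; bounded degree) and `SystemTowers` on MP_19ffc6_ag (the operations
`surface`, `models`, `product`, `system`, `radical`, `saturation`, over perfect fields; resolution of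
projective varieties). New here is the class which is closed under all of these operations
simultaneously, so that the coefficients of a system can be any elements of a family of
bounded degree or zeros of polynomials, and conversely families and polynomials can be taken over a
variety which is given by a system and coverings of degree `p`; and the regular proper models over
`ℤ` for the operation `system`.

Examples which are in neither of the two classes:

* Let `V` be a variety over `k` of dimension `r ≥ 2` and degree at most `δ` in an affine space,
  `(s * δ) ^ 2 ^ (r - 2) < p`, and let `a j` be polynomial functions of degree at most `s` on `V`.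
  Let `x^(1), ..., x^(n)` be disjoint sets of variables, and `h j` a form over `k` of degree
  prime to `p` in the variables `x^(j)` whose face forms define smooth hypersurfaces in the torus,
  `p ∤ m j`. The (wild) coverings `w ^ p - w = ∑ j, a j / h j (x^(j)) ^ m j` and
  `w j ^ p - w j = a j / h j (x^(j)) ^ m j` of the product of `V` and of the affine spaces with the
  coordinates `x^(j)`: the step `variety`, followed by the step `system`.

* Let `T` be the variety with function field `K` obtained from a surface `S` by a step `system`, for
  example a component of `∑ j, c i j * (a j * x j ^ d j) ^ q j = b i` (`q j` powers of `p`, `a j`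
  rational functions on `S`), and let `Y → S` be a family of varieties of dimension `r` and degree at
  most `δ`, `δ ^ 2 ^ r < p`: the components of the fibre product of `T` and `Y` over `S`, and
  the coverings of such fibre products by radicals.

The proof: the pairs `(K, P)` of the class have smooth projective models over `k` with normal
crossings boundary on which given finitely many elements of `P` are boundary functions
(`Pool.Agent.N762.FP.Mod`); each of the operations preserves this property (the libraries of
helper762, helper98, helper808 and helper102). A smooth projective model over a finite field is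
regular and proper over `ℤ`.

helper3 (statement and assembly), built on the libraries of helpers 762, 102, 98, 808, 214, 418, 558.
-/

set_option autoImplicit false

open AlgebraicGeometry CategoryTheory Polynomial Pool.Agent.W558 Pool.Agent.N98 Pool.Agent.TH214.SD
  Pool.Agent.N102.FL

namespace Pool.Agent.Results.MP_4d1008_ag.CombinedTowers

/-- The values at the point `x` of the polynomials over `F` of total degree at most `t`. -/
noncomputable def values (F : Type) {K : Type} [Field F] [Field K] [Algebra F K] {N : ℕ}
    (x : Fin N → K) (t : ℕ) : Submodule F K :=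
  (MvPolynomial.restrictTotalDegree (Fin N) F t).map
    (MvPolynomial.aeval x : MvPolynomial (Fin N) F →ₐ[F] K).toLinearMap

/-- The variety in the affine space over `F` with the generic point `x` (the zeros of the
polynomials over `F` which vanish at `x`), whose function field is `F (x)`, has dimension `r` and
degree at most `δ`: its Hilbert function, the dimension over `F` of the space of the polynomial
functions of degree at most `t` on the variety, is at most `δ * t ^ r / r! + O (t ^ (r - 1))`. -/
def DegreeAtMost (F : Type) {K : Type} [Field F] [Field K] [Algebra F K] {N : ℕ}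
    (x : Fin N → K) (r δ : ℕ) : Prop :=
  Algebra.trdeg F (IntermediateField.adjoin F (Set.range x)) = r ∧
    ∃ C : ℕ, ∀ t : ℕ, r.factorial * Module.finrank F (values F x t) ≤ δ * (t + C) ^ r

/-- The smallest class of pairs `(K, P)`, where `K` is an extension of the field `k` and `P` is a
set of elements of `K`, with the following properties. -/
inductive IsCombinedTower (p : ℕ) (k : Type) [Field k] :
    (K : Type) → [Field K] → [Algebra k K] → Set K → Prop
  /-- If `E` is the function field of a smooth projective surface, then `(E, E)` is in the class.
  -/
  | surface (E : Type) [Field E] [Algebra k E] (h2 : Algebra.trdeg k E = 2)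
      (hE : HasModel k E) : IsCombinedTower p k E Set.univ
  /-- If each finite family of nonzero elements of `P` has its zeros and poles in a simple normal
  crossings divisor on some smooth projective variety with function field `E`, then `(E, P)` is in
  the class. (Examples: `E = k`; function fields of curves, with `P = E`.) -/
  | models (E : Type) [Field E] [Algebra k E] (P : Set E)
      (hE : ∀ (m : ℕ) (g : Fin m → E), (∀ b, g b ∈ P) → (∀ b, g b ≠ 0) →
        ∃ (N L : ℕ) (H : Fin (N + 1) → E) (x : Fin (N + 1) → Fin L → E)
          (Γ : Fin m → Fin L → ℤ), IsLogModel (k := k) g H x Γ) :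
      IsCombinedTower p k E P
  /-- **Varieties of bounded degree.** Let `K` be the function field of an affine variety over `k`
  with the generic point `x`, of dimension `r ≥ 2` and degree at most `δ`, where
  `(s * δ) ^ 2 ^ (r - 2) < p`. Then `(K, P)` is in the class for the set `P` of the polynomials over
  `k` of degree at most `s` in the `x i`. -/
  | variety (K : Type) [Field K] [Algebra k K] (N r δ s : ℕ) (x : Fin N → K)
      (hx : IntermediateField.adjoin k (Set.range x) = ⊤) (hr : 2 ≤ r) (hδ : DegreeAtMost k x r δ)
      (hs : 1 ≤ s) (hp : (s * δ) ^ 2 ^ (r - 2) < p) :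
      IsCombinedTower p k K
        {z | ∃ G : MvPolynomial (Fin N) k, G.totalDegree ≤ s ∧ z = MvPolynomial.aeval x G}
  /-- **Products.** If `(K₁, P₁)` and `(K₂, P₂)` are in the class, and `K` is the field of fractions
  of the image of `K₁ ⊗ K₂`, where the homomorphism from `K₁ ⊗ K₂` to `K` is injective (if `k` is
  algebraically closed, `K` is the function field of the product of varieties with the function
  fields `K₁` and `K₂`), then `(K, P₁ ∪ P₂)` is in the class. -/
  | product (K₁ K₂ K : Type) [Field K₁] [Field K₂] [Field K] [Algebra k K₁] [Algebra k K₂]
      [Algebra k K] (P₁ : Set K₁) (P₂ : Set K₂) (h₁ : IsCombinedTower p k K₁ P₁)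
      (h₂ : IsCombinedTower p k K₂ P₂) (ι₁ : K₁ →ₐ[k] K) (ι₂ : K₂ →ₐ[k] K)
      (hι : Function.Injective (Algebra.TensorProduct.productMap ι₁ ι₂))
      (hK : IntermediateField.adjoin k (Set.range ι₁ ∪ Set.range ι₂) = ⊤) :
      IsCombinedTower p k K (ι₁ '' P₁ ∪ ι₂ '' P₂)
  /-- **Families of bounded degree.** Let `(L, P)` be in the class, and let `E` be a field contained
  in `P`. Let `F` be a field of `p ^ e`-th powers of elements of `E` over which `E` is algebraic,
  for example `E ^ (p ^ e)` (or `E` if `e = 0`). Let `K` be generated over `L` by
  `y 1, ..., y N` and have transcendence degree `r` over `L`, and let the exponents `m i` be not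
  divisible by `p ^ (e + 1)` and such that `(y 1 ^ m 1, ..., y N ^ m N)` is the generic point of a
  variety over `F` of dimension `r` and degree at most `δ`. (So `K` is the function field of a
  component of the product over `E` of a variety with the function field `L` and of a variety over
  `E` which is a component of the inverse image of a variety of dimension `r` and degree at most `δ`
  over `F`.) Suppose that `(s * δ) ^ 2 ^ r < p` and `F` is infinite, or that
  `(max s δ) ^ 2 ^ (N - 1) < p`. Then the `y i` and the polynomials over `F` of degree at most `s`
  in the `y i ^ m i` can be added to `P`. -/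
  | family (L K F E : Type) [Field L] [Field K] [Field F] [Field E] [Algebra k L] [Algebra k K]
      [Algebra L K] [IsScalarTower k L K] [Algebra E L] [Algebra E K] [IsScalarTower E L K]
      [Algebra F E] [Algebra F K] [IsScalarTower F E K] [Algebra.IsAlgebraic F E]
      (P : Set L) (h : IsCombinedTower p k L P) (hE : ∀ a : E, algebraMap E L a ∈ P)
      (e : ℕ) (hF : ∀ a : F, ∃ b : E, b ^ p ^ e = algebraMap F E a)
      (N r δ s : ℕ) (y : Fin N → K) (hy : IntermediateField.adjoin L (Set.range y) = ⊤)
      (hr : Algebra.trdeg L K = r) (m : Fin N → ℕ) (hm : ∀ i, ¬ p ^ (e + 1) ∣ m i)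
      (hδ : DegreeAtMost F (fun i => y i ^ m i) r δ) (hs : 1 ≤ s)
      (hp : (Infinite F ∧ (s * δ) ^ 2 ^ r < p) ∨ max s δ ^ 2 ^ (N - 1) < p) :
      IsCombinedTower p k K (algebraMap L K '' P ∪ (Set.range y ∪
        {z | ∃ G : MvPolynomial (Fin N) F,
          G.totalDegree ≤ s ∧ z = MvPolynomial.aeval (fun i => y i ^ m i) G}))
  /-- **Adjoining one element.** Let `(L, P)` be in the class, and let `Φ` be a set of nonzero
  polynomials over `L` of degree at most `Δ < p`, which contains `X`, is closed under derivatives,
  whose constant members are in `P`, and such that for `f`, `g` in `Φ`, where `f` is not constant,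
  there is a nonzero polynomial `Q` of degree at most `Δ` (for example the characteristic
  polynomial of `g` modulo `f`) whose nonzero coefficients are in `P`, such that `f` divides
  `Q (g)`. Let `K = L (z)`, where `z` is transcendental over `L` or a zero of a member of `Φ`. Then
  the values at `z` of the members of `Φ` can be added to `P`. -/
  | element (L K : Type) [Field L] [Field K] [Algebra k L] [Algebra k K] [Algebra L K]
      [IsScalarTower k L K] (P : Set L) (h : IsCombinedTower p k L P) (Δ : ℕ) (hΔ : Δ < p)
      (Φ : Set L[X]) (h0 : ∀ f ∈ Φ, f ≠ 0) (hdeg : ∀ f ∈ Φ, f.natDegree ≤ Δ) (hX : X ∈ Φ)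
      (hder : ∀ f ∈ Φ, 1 ≤ f.natDegree → derivative f ∈ Φ)
      (hconst : ∀ f ∈ Φ, f.natDegree = 0 → f.coeff 0 ∈ P)
      (hQ : ∀ f ∈ Φ, ∀ g ∈ Φ, 1 ≤ f.natDegree → ∃ Q : L[X], Q ≠ 0 ∧ Q.natDegree ≤ Δ ∧
        f ∣ Q.comp g ∧ ∀ n, Q.coeff n ≠ 0 → Q.coeff n ∈ P)
      (z : K) (hz : IntermediateField.adjoin L {z} = ⊤)
      (hz' : Transcendental L z ∨ ∃ f ∈ Φ, aeval z f = 0) :
      IsCombinedTower p k K (algebraMap L K '' P ∪ {y | ∃ f ∈ Φ, y = aeval z f})
  /-- **Systems with Frobenius levels, and their coverings.** Let `(L, P)` be in the class, and let
  `M = L (z, x)`, where the elements `z 1, ..., z s` and `x 1, ..., x n` satisfy a schön system over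
  linear relations between `1` and the powers `z t ^ (p ^ e t)`, with coefficients
  `v 1, ..., v h` in `P` (`IsLeveledSystemOver`). Let `F 1, ..., F a` be Laurent polynomials over `k`
  in the variables of `((v, z), x)` which are strongly nondegenerate on the system, for example
  `a = 0`, and let `K = M (w)`, where all `w j ^ p - w j` are integral linear combinations of the
  `F t ((v, z), x)`, or all `w j ^ p` are linear combinations over `k` of the `F t ((v, z), x)` (for
  example `K = M`). Then the `x j`, and the linear combinations over `k` of `1` and of the
  powers `z t ^ (p ^ (e t - f))`, `e t ≥ f`, for all `f ≥ 0`, can be added to `P`. -/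
  | system (L M K : Type) [Field L] [Field M] [Field K] [Algebra k L] [Algebra k M] [Algebra L M]
      [IsScalarTower k L M] [Algebra k K] [Algebra L K] [Algebra M K] [IsScalarTower k M K]
      [IsScalarTower L M K] (P : Set L) (h : IsCombinedTower p k L P) (m s n q c a r : ℕ)
      (v : Fin m → L) (hv : ∀ b, v b ∈ P) (e : Fin s → ℕ) (z : Fin s → M) (x : Fin n → M)
      (G : Fin q → (Fin (m + s) ⊕ Fin n → ℤ) →₀ k) (hB : IsLeveledSystemOver p c v e z x G)
      (F : Fin a → (Fin (m + s) ⊕ Fin n → ℤ) →₀ k) (hF : StronglyNondegenerateOn G F)
      (w : Fin r → K)
      (hw : (∀ j, w j ^ p - w j ∈ AddSubgroup.closure (Set.range fun t => algebraMap M K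
          (value (F t) (Fin.append (fun b => algebraMap L M (v b)) z) x))) ∨
        ∀ j, w j ^ p ∈ Submodule.span k (Set.range fun t => algebraMap M K
          (value (F t) (Fin.append (fun b => algebraMap L M (v b)) z) x)))
      (hK : IntermediateField.adjoin M (Set.range w) = ⊤) :
      IsCombinedTower p k K (algebraMap L K '' P ∪
        algebraMap M K '' (Set.range x ∪ {g | IsLinearForm k p e z g}))
  /-- **Radicals.** Let `(L, P)` be in the class, and let `K` be generated over `L` by elements
  `w j ≠ 0` such that `(w j) ^ (n j)` is in `P`, for an exponent `n j` prime to `p`. Then the `w j`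
  can be added to `P`. -/
  | radical (L K : Type) [Field L] [Field K] [Algebra k L] [Algebra k K] [Algebra L K]
      [IsScalarTower k L K] (P : Set L) (h : IsCombinedTower p k L P) (g : ℕ) (w : Fin g → K)
      (n : Fin g → ℕ) (hw0 : ∀ j, w j ≠ 0) (hn : ∀ j, ¬ p ∣ n j)
      (hw : ∀ j, ∃ z ∈ P, w j ^ n j = algebraMap L K z)
      (hK : IntermediateField.adjoin L (Set.range w) = ⊤) :
      IsCombinedTower p k K (algebraMap L K '' P ∪ Set.range w)
  /-- **Products and roots.** If `(K, P)` is in the class, and each nonzero element of `Q` has a
  power which is a product of a constant and of (positive or negative) powers of elements of `P`,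
  then `(K, Q)` is in the class. -/
  | saturation (K : Type) [Field K] [Algebra k K] (P Q : Set K) (h : IsCombinedTower p k K P)
      (hQ : ∀ z ∈ Q, z ≠ 0 → ∃ n : ℕ, n ≠ 0 ∧ ∃ (c : k) (l : ℕ) (a : Fin l → K) (e : Fin l → ℤ),
        (∀ i, a i ∈ P) ∧ z ^ n = algebraMap k K c * ∏ i, a i ^ e i) :
      IsCombinedTower p k K Q

/-- Finite families of elements of `P` are boundary functions on log smooth models. -/
theorem mod_of_tower (p : ℕ) [Fact p.Prime] (k : Type) [Field k] [PerfectField k]
    [CharP k p] (K : Type) [Field K] [Algebra k K] (P : Set K) (h : IsCombinedTower p k K P) :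
    Pool.Agent.N762.FP.Mod k P := by
  induction h with
  | surface E h2 hE =>
    exact Pool.Agent.N762.FP.mod_base (Pool.Agent.W418.LCI.hasLM_of_surface k E h2 hE)
  | models E P hE => exact Pool.Agent.N762.FP.mod_models hE
  | variety K N r δ s x hx hr hδ hs hp =>
    obtain ⟨htr, C, hC⟩ := hδ
    refine Pool.Agent.N808.PR.mod_abs x hx r hr ?_ δ C s hs hC
      (factorial_ne_zero_of_lt p (Fact.out : p.Prime) hp)
    rw [hx] at htr
    rw [← htr]
    exact (IntermediateField.topEquiv (F := k) (E := K)).trdeg_eq.symm
  | product K₁ K₂ K P₁ P₂ h₁ h₂ ι₁ ι₂ hι hK ih₁ ih₂ =>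
    exact Pool.Agent.N762.FP.mod_prod ι₁ ι₂ hι hK ih₁ ih₂
  | family L K F E P h hE e hF N r δ s y hy hr m hm hδ hs hp ih =>
    obtain ⟨htr, C, hC⟩ := hδ
    exact Pool.Agent.N762.FP.mod_fam p ih hE y m e hm hF hy r δ C htr hr hC s hs
      (hp.imp (fun h => ⟨h.1, factorial_ne_zero_of_lt p (Fact.out : p.Prime) h.2⟩)
        (fun h => factorial_ne_zero_of_lt p (Fact.out : p.Prime) h))
  | element L K P h Δ hΔ Φ h0 hdeg hX hder hconst hQ z hz hz' ih =>
    exact Pool.Agent.N762.FP.mod_root ih Δ (factorial_ne_zero_of_lt p (Fact.out : p.Prime) hΔ) Φ
      h0 hdeg hX hder hconst hQ z hz hz'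
  | system L M K P h m s n q c a r v hv e z x G hB F hF w hw hK ih =>
    exact Pool.Agent.N102.TF.mod_system ih hv hB hF w hw hK
  | radical L K P h g w n hw0 hn hw hK ih =>
    exact Pool.Agent.N762.FP.mod_rad p ih w hw0 n hn hw hK
  | saturation K P Q h hQ ih => exact Pool.Agent.N762.FP.mod_sat ih hQ

/-- Let `k` be a finite field of characteristic `p`, and let `(K, P)` be a pair of an extension of
`k` and a set of its elements which is obtained from function fields of surfaces by the operations
of `IsCombinedTower`. Then for every integral scheme `Y` of finite type over `ℤ` whose function field is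
isomorphic to `K` there is a regular integral scheme `X'`, proper over `ℤ`, with function field
isomorphic to that of `Y`. -/
theorem result (p : ℕ) [Fact p.Prime] (k : Type) [Field k] [Finite k] [CharP k p] (K : Type)
    [Field K] [Algebra k K] (P : Set K) (hP : IsCombinedTower p k K P)
    (Y : Scheme.{0}) (_ : IsIntegral Y) (f : Y ⟶ Spec (CommRingCat.of ℤ))
    (_ : LocallyOfFiniteType f) (_ : QuasiCompact f) (_ : Nonempty (Y.functionField ≃+* K)) :
    ∃ (X' : Scheme.{0}) (_ : IsIntegral X') (g : X' ⟶ Spec (CommRingCat.of ℤ)),
      IsProper g ∧
      (∀ x : X',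
        (((Module.finrank (IsLocalRing.ResidueField (X'.presheaf.stalk x))
            (IsLocalRing.CotangentSpace (X'.presheaf.stalk x)) : ℕ∞)) : WithBot ℕ∞)
          = ringKrullDim (X'.presheaf.stalk x)) ∧
      Nonempty (X'.functionField ≃+* Y.functionField) := by
  obtain ⟨ε⟩ := ‹Nonempty (Y.functionField ≃+* K)›
  obtain ⟨T, I, hT, hI, M, hFr, -⟩ := mod_of_tower p k K P hP Empty (fun i => i.elim)
    (fun i => i.elim) (fun i => i.elim)
  obtain ⟨X', hX', g, h1, h2, ⟨h3⟩⟩ := Pool.Agent.W418.Z.regular_of_LM M (fun t z => by
    obtain ⟨a, ha, b, hb, hb0, rfl⟩ := hFr t z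
    exact ⟨a, ha, b, hb, hb0, (div_eq_mul_inv _ _).symm⟩)
  exact ⟨X', hX', g, h1, h2, ⟨h3.trans ε.symm⟩⟩

end Pool.Agent.Results.MP_4d1008_ag.CombinedTowers
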