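import Pool.Agent.T9h3.R.Opg

/-!
MP_4d1008_ag: a local-global principle for resolution by regular models over extensions with wild
ramification, in every dimension, over all global fields.

Let `X` be a regular projective variety over a global field `E` (a number field or a function field of
one variable over a finite field), with the function field `F` and the homogeneous coordinates `x`.
Suppose that for every place `V` there is a finite Galois extension `M` of `E`, which may depend on `V`,
such that the inertia groups of `M` over `V` have no order divisible by the square of the residue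
characteristic, and a regular projective scheme over the integral closure `O` of `V` in `M` with the
generic fibre `X_M`, where the polarization is a power of the given one, with linear Galois action, such
that the wild inertia groups over `V` act on it with nondegenerate leading form. Then every integral
scheme of finite type over the integers which is birational to `X` has a regular model which is proper
over the integers.

There is no condition on the tame inertia groups. The wild inertia groups have prime order (or are
trivial); they can have fixed points, not necessarily isolated, but there is a weighted blowup on which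
the leading form of `g - 1`, for the wild automorphisms `g`, has no zeros. For `M = E` the condition at
`V` means that `X` has a regular projective model over `V`.

The starting file WeightedWildQuotients is about number fields, one extension `M` of `E`, and one
regular projective scheme over the ring of integers of `M` with one family of weighted blowups. Here the
conditions at the places are independent of each other: the extensions `M`, the degrees of the
embeddings, the lattices of coordinates and so the models over the valuation rings depend on the place,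
and `E` can have positive characteristic.

The proof: the closure of `X` over the valuation rings is regular for almost all places, because `X` is
smooth over the perfect field `E` (number fields), or because the closure over an affine curve is of
finite type over a perfect field (function fields), and the smooth locus is open. At each place one
constructs from the weighted blowup of the equivariant model lattices in the powers of the space of the
coordinates of `X`, whose projective charts are regular. The lattices over the valuation rings of
finitely many places and the lattices over the affine base which is the complement of these places are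
glued to lattices over the whole base (for function fields: over a projective line), and the charts of
these lattices are glued to a scheme which is proper over the integers.
-/

set_option autoImplicit false

open AlgebraicGeometry CategoryTheory CategoryTheory.Limits

open scoped IntermediateField

namespace Pool.Agent.Results.MP_4d1008_ag.LocalGlobalWildQuotients

/-- `E` is a number field, or a finite separable extension of the rational function field `κ(s)` over a
finite field `κ`. -/
def IsGlobalField (E : Type) [Field E] : Prop :=
  NumberField E ∨ ∃ (κ : Type) (_ : Field κ) (_ : Finite κ) (_ : Algebra κ E) (s : E),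
    Transcendental κ s ∧ FiniteDimensional κ⟮s⟯ E ∧ Algebra.IsSeparable κ⟮s⟯ E

section extension

variable {O E M : Type} [CommRing O] [Field E] [Field M] [Algebra O M] [Algebra E M]

/-- The inertia group of the ideal `𝔓` of the subring `O` of `M`: the automorphisms of `M` over `E`
which act trivially modulo `𝔓`. -/
def inertiaGroup (E M : Type) [Field E] [Field M] [Algebra O M] [Algebra E M] (𝔓 : Ideal O) :
    Set (M ≃ₐ[E] M) :=
  {g | ∀ o : O, ∃ a ∈ 𝔓, algebraMap O M a = g (algebraMap O M o) - algebraMap O M o}

/-- The order of the inertia group of the maximal ideal `𝔓` is divisible by `r ^ i`, where `r` is the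
residue characteristic. -/
def ResCharPowDvd (E M : Type) [Field E] [Field M] [Algebra O M] [Algebra E M] (𝔓 : Ideal O)
    (i : ℕ) : Prop :=
  ∃ r : ℕ, r.Prime ∧ (r : O) ∈ 𝔓 ∧ r ^ i ∣ Nat.card (inertiaGroup E M 𝔓)

/-- `g ≠ 1` is in the wild inertia group of `𝔓`: it is the identity modulo `𝔓` and acts trivially
on `𝔓` modulo `𝔓 ^ 2`. -/
def IsWild (𝔓 : Ideal O) (g : M ≃ₐ[E] M) : Prop :=
  g ≠ 1 ∧ g ∈ inertiaGroup E M 𝔓 ∧
    ∀ o ∈ 𝔓, ∃ a ∈ 𝔓 ^ 2, algebraMap O M a = g (algebraMap O M o) - algebraMap O M o

/-- The automorphism `h` maps the ideal `𝔓` to the ideal `𝔓'`. -/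
def Maps (h : M ≃ₐ[E] M) (𝔓 𝔓' : Ideal O) : Prop :=
  ∀ o o' : O, algebraMap O M o' = h (algebraMap O M o) → (o ∈ 𝔓 ↔ o' ∈ 𝔓')

end extension

section rings

variable {O K : Type} [CommRing O] [Field K] [Algebra O K] {m : ℕ}

/-- The ring `O[z 0 / z j, ..., z m / z j]` of the chart `z j ≠ 0`. -/
def chartRing (O : Type) {K : Type} [CommRing O] [Field K] [Algebra O K] {m : ℕ}
    (z : Fin (m + 1) → K) (j : Fin (m + 1)) : Subring K :=
  (Algebra.adjoin O (Set.range fun i => z i / z j)).toSubring

/-- The element `a T ^ n` of the ring of Laurent polynomials. -/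
noncomputable def homog {K : Type} [Field K] (a : K) (n : ℤ) : LaurentPolynomial K :=
  LaurentPolynomial.C a * LaurentPolynomial.T n

/-- The graded ring (the extended Rees algebra) over the chart `z j ≠ 0` of the weighted blowup for
which the ideal `𝔓` has the weight `e` and the coordinate `z i` has the weight `w i`: it is generated
over `O` by `T ^ (-1)`, the elements `a T ^ e`, for `a` in `𝔓`, and the elements
`(z i / z j) T ^ (w i)`. -/
noncomputable def blowupRing (𝔓 : Ideal O) (e : ℕ) (w : Fin (m + 1) → ℕ) (z : Fin (m + 1) → K)
    (j : Fin (m + 1)) : Subring (LaurentPolynomial K) :=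
  (Algebra.adjoin O ({homog 1 (-1)} ∪ {f | ∃ a ∈ 𝔓, f = homog (algebraMap O K a) e} ∪
    Set.range fun i => homog (z i / z j) (w i))).toSubring

/-- The ideal of the zeros of the leading form `T ^ D (σ - 1)` of the automorphism `σ`, over `𝔓`, in
the ring `B` of the weighted blowup over the chart `z j ≠ 0`: it is generated by the elements of
`𝔓`, the elements `(σ a - a) T ^ (e + D)`, for `a` in `𝔓`, and the minors
`(z i σ(z l) - z l σ(z i)) / z j ^ 2`, times `T ^ (w i + w l + D)`. -/
noncomputable def zeroIdeal (B : Subring (LaurentPolynomial K)) (𝔓 : Ideal O) (e D : ℕ)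
    (w : Fin (m + 1) → ℕ) (z : Fin (m + 1) → K) (σ : K → K) (j : Fin (m + 1)) : Ideal B :=
  Ideal.span {x | (∃ a ∈ 𝔓, (x : LaurentPolynomial K) = homog (algebraMap O K a) 0) ∨
    (∃ a ∈ 𝔓, (x : LaurentPolynomial K) =
      homog (σ (algebraMap O K a) - algebraMap O K a) ((e : ℤ) + D)) ∨
    ∃ i l, (x : LaurentPolynomial K) =
      homog ((z i * σ (z l) - z l * σ (z i)) / z j ^ 2) ((w i : ℤ) + w l + D)}

/-- The leading form `T ^ D (σ - 1)` has no zeros outside the vertex: the homogeneous elements of
positive degree are in the radical of the ideal of its zeros. -/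
def HasNoZeros (B : Subring (LaurentPolynomial K)) (𝔓 : Ideal O) (e D : ℕ)
    (w : Fin (m + 1) → ℕ) (z : Fin (m + 1) → K) (σ : K → K) (j : Fin (m + 1)) : Prop :=
  ∀ x : B, (∃ n : ℕ, 0 < n ∧ ∃ a : K, (x : LaurentPolynomial K) = homog a n) →
    x ∈ (zeroIdeal B 𝔓 e D w z σ j).radical

end rings

section models

variable {O E F M K : Type} [CommRing O] [Field E] [Field F] [Field M] [Field K] [Algebra O M]
  [Algebra O K] [Algebra E F] [Algebra E M] [Algebra M K] [Algebra E K] [Algebra F K] {m : ℕ}

/-- `ρ` is a semilinear action on `K` of the Galois group of `M` over `E`, with the fixed field `F`. -/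
structure IsDescent (F : Type) [Field F] [Algebra F K] (ρ : (M ≃ₐ[E] M) →* (K ≃ₐ[E] K)) :
    Prop where
  semilinear : ∀ g c, ρ g (algebraMap M K c) = algebraMap M K (g c)
  fixed : ∀ y, (∀ g, ρ g y = y) ↔ ∃ f : F, algebraMap F K f = y

/-- The homogeneous coordinates `z` define a regular projective scheme over the subring `O` of `M`,
with the function field `K`, on which the Galois group acts linearly. -/
structure IsRegularModel (O : Type) [CommRing O] [Algebra O K]
    (ρ : (M ≃ₐ[E] M) →* (K ≃ₐ[E] K)) (z : Fin (m + 1) → K) : Prop where
  ne_zero : ∀ j, z j ≠ 0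
  functionField : IntermediateField.adjoin M (Set.range fun j => z j / z 0) = ⊤
  linear : ∀ g j, ρ g (z j) ∈ Submodule.span O (Set.range z)
  regular : ∀ j, IsRegularRing (chartRing O z j)

/-- The weighted blowups, with the weight `e 𝔓` of `𝔓` and the weights `w 𝔓 i` of the coordinates
`z i`, resolve the wild fixed points. At each maximal ideal `𝔓` of `O` with a nontrivial wild inertia
group: the weighted blowup is regular; the elements `h` of the Galois group map it to the weighted
blowup at `h(𝔓)`; and for `g ≠ 1` in the wild inertia group, which is the identity modulo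
`𝔓 ^ (l + 1)`, the action of `g - 1` raises the weights by `D`, `0 < D ≤ l e`, and its leading form
has no zeros outside the vertex. -/
structure IsNondegenerate (ρ : (M ≃ₐ[E] M) →* (K ≃ₐ[E] K))
    (z : Fin (m + 1) → K) (e : Ideal O → ℕ) (w : Ideal O → Fin (m + 1) → ℕ) : Prop where
  pos : ∀ 𝔓, 0 < e 𝔓
  regular : ∀ 𝔓 (g : M ≃ₐ[E] M), 𝔓.IsMaximal → IsWild 𝔓 g → ∀ j,
    IsRegularRing (blowupRing 𝔓 (e 𝔓) (w 𝔓) z j)
  equivariant : ∀ 𝔓 (g : M ≃ₐ[E] M), 𝔓.IsMaximal → IsWild 𝔓 g →
    ∀ (h : M ≃ₐ[E] M) (𝔓' : Ideal O), Maps h 𝔓 𝔓' → e 𝔓' = e 𝔓 ∧
      ∀ i j, homog (ρ h (z i) / z j) (w 𝔓 i) ∈ blowupRing 𝔓' (e 𝔓') (w 𝔓') z j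
  nondegenerate : ∀ 𝔓 (g : M ≃ₐ[E] M), 𝔓.IsMaximal → IsWild 𝔓 g →
    ∃ l D : ℕ, 0 < D ∧ D ≤ e 𝔓 * l ∧
      (∀ o : O, ∃ a ∈ 𝔓 ^ (l + 1), algebraMap O M a = g (algebraMap O M o) - algebraMap O M o) ∧
      (∀ i j, homog ((ρ g (z i) - z i) / z j) ((w 𝔓 i : ℤ) + D) ∈
        blowupRing 𝔓 (e 𝔓) (w 𝔓) z j) ∧
      ∀ j, HasNoZeros (blowupRing 𝔓 (e 𝔓) (w 𝔓) z j) 𝔓 (e 𝔓) D (w 𝔓) z (ρ g) j

/-- Let `X` be the variety with the function field `F` whose homogeneous coordinates span the space `W`
over `E`, and let `M` be a Galois extension of `E`. The coordinates `z` define a good model of `X_M` over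
the subring `O` of `M`: `r ^ 2` does not divide the orders of the inertia groups of `O`, where `r` is the
residue characteristic, the model is regular and equivariant, it is polarized by a power of `W`, and the
wild inertia groups act with nondegenerate leading form. -/
structure IsGoodModel (O : Type) [CommRing O] [Algebra O M] [Algebra O K] (W : Submodule E F)
    (ρ : (M ≃ₐ[E] M) →* (K ≃ₐ[E] K)) (z : Fin (m + 1) → K) : Prop where
  inertia : ∀ 𝔓 : Ideal O, 𝔓.IsMaximal → ¬ ResCharPowDvd E M 𝔓 2
  descent : IsDescent F ρ
  regular : IsRegularModel O ρ z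
  polarized : ∃ n : ℕ, 1 ≤ n ∧
    Submodule.span M (algebraMap F K '' ((W ^ n : Submodule E F) : Set F)) =
      Submodule.span M (Set.range z)
  nondegenerate : ∃ (e : Ideal O → ℕ) (w : Ideal O → Fin (m + 1) → ℕ), IsNondegenerate ρ z e w

end models

/-- The variety with the function field `F` over `E` whose homogeneous coordinates span the space `W` has
a good model over the integral closure of `V` in a finite Galois extension `M` of `E`. -/
def HasGoodModel {E F : Type} [Field E] [Field F] [Algebra E F] (W : Submodule E F)
    (V : ValuationSubring E) : Prop :=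
  ∃ (M K : Type) (_ : Field M) (_ : Field K) (_ : Algebra E M) (_ : FiniteDimensional E M)
    (_ : IsGalois E M) (_ : Algebra M K) (_ : Algebra E K) (_ : IsScalarTower E M K)
    (_ : Algebra F K) (_ : IsScalarTower E F K)
    (ρ : (M ≃ₐ[E] M) →* (K ≃ₐ[E] K)) (m : ℕ) (z : Fin (m + 1) → K),
    IsGoodModel (integralClosure V M) W ρ z

theorem result :
    ∀ (E F : Type) [Field E] [Field F] [Algebra E F], IsGlobalField E →
      -- the regular projective variety over `E`
      ∀ (m : ℕ) (x : Fin (m + 1) → F), (∀ j, x j ≠ 0) →
      IntermediateField.adjoin E (Set.range fun j => x j / x 0) = ⊤ →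
      (∀ j, IsRegularRing (chartRing E x j)) →
      -- it has a good model at every place
      (∀ V : ValuationSubring E, V ≠ ⊤ → HasGoodModel (Submodule.span E (Set.range x)) V) →
      -- every integral scheme of finite type over the integers with the function field `F`
      ∀ (Y : Scheme.{0}) (_ : IsIntegral Y) (s : Y ⟶ Spec (CommRingCat.of ℤ)),
      LocallyOfFiniteType s → QuasiCompact s → Nonempty (Y.functionField ≃+* F) →
      ∃ (X' : Scheme.{0}) (_ : IsIntegral X') (g : X' ⟶ Spec (CommRingCat.of ℤ)),
        IsProper g ∧
        (∀ x : X',
          (((Module.finrank (IsLocalRing.ResidueField (X'.presheaf.stalk x))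
              (IsLocalRing.CotangentSpace (X'.presheaf.stalk x)) : ℕ∞)) : WithBot ℕ∞)
            = ringKrullDim (X'.presheaf.stalk x)) ∧
        Nonempty (X'.functionField ≃+* Y.functionField) := by
  intro E F _ _ _ hE m x x0 hgen hreg hloc
  refine Pool.Agent.T9h3.R.place_globT hE x0 hgen (fun j => hreg j) (fun V hV => ?_)
  obtain ⟨M, K, _, _, _, _, _, _, _, _, _, _, ρ, m', z, hG⟩ := hloc V hV
  obtain ⟨n, hn, hW⟩ := hG.polarized
  obtain ⟨e, w, hD⟩ := hG.nondegenerate
  exact ⟨M, K, inferInstance, inferInstance, inferInstance, inferInstance, inferInstance,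
    inferInstance, inferInstance, inferInstance, inferInstance, inferInstance, ρ, n, m', z, e, w,
    hn, fun 𝔓 h𝔓 p hp hp𝔓 hd => hG.inertia 𝔓 h𝔓 ⟨p, hp, hp𝔓, hd⟩, hG.descent.semilinear,
    hG.descent.fixed, hG.regular.ne_zero, hG.regular.linear, fun j => hG.regular.regular j,
    hG.regular.functionField, hW, ⟨hD.pos, hD.regular, hD.equivariant, hD.nondegenerate⟩⟩

end Pool.Agent.Results.MP_4d1008_ag.LocalGlobalWildQuotients
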