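import Pool.Agent.T9h3.R.Torw

/-!
MP_4d1008_ag: a local-global principle for resolution, in every dimension, of subvarieties of torsors
under tori over global fields, with wild ramification.

Let `E` be a global field, and let `M` be a finite Galois extension of `E`, such that no inertia group of
`M` over `E` has order divisible by the square of the residue characteristic. Let `X` be a variety over
`E` such that `X_M` is birational to a closed subvariety of a split torus, defined by Laurent polynomials
`f`, with the group of characters `χ(L)`, where the Galois group `G` maps characters to multiples of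
characters (so `X` is birational to a closed subvariety of a torsor under a torus which is split by `M`).

Suppose that `X` is locally nondegenerate: for every place `V` of `E` there are characters `χ_V` on a
lattice `L_V` such that `X_M` is defined by nondegenerate Laurent polynomials `f_V` over the integral
closure `O_V` of `V` in `M` (the initial forms define regular subschemes of the split torus over `O_V`, of
the right codimension), where
* every `χ(x)` is a multiple of some `χ_V(y)` by a constant in `M`, and conversely;
* `G` maps every `χ_V(x)` to a multiple of `χ_V(g x)` by an element of `O_V`;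
* the wildly ramified automorphisms `g` of prime order map `χ_V(x)` to `χ_V(g x)`, and the `f_V` are
  nondegenerate along them;
and for almost all `V` one can take `f_V = f`. Then every integral scheme of finite type over the integers
with the function field of `X` has a regular proper model.

So the lattices, the Laurent polynomials and their numbers may depend on the place. For example, at a
tamely ramified place with the valuations `v_1, ..., v_r` of `M`, new characters with the values
`π_1, ..., π_r` (uniformizers) can be added, with the additional equations `y_i = π_i`.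

The proof: the models at the different places have to be compatible. There is one polytope in the fibre
product of the lattices, stable under `G`, whose images in all the lattices are smooth and
refine the Newton polytopes of the `f_V`; so the models at all the places can be constructed from the same
linear system on `X`. At a place where `M` is wildly ramified, the model is a quotient of a weighted
blowup; by a theorem on the norms of units, the weighted blowups are permuted also by the elements of `G`
which map the characters only to multiples of characters. The model over the global base is obtained by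
gluing lattices over the rings of the places.
-/

set_option autoImplicit false

open AlgebraicGeometry CategoryTheory CategoryTheory.Limits

open scoped IntermediateField

namespace Pool.Agent.Results.MP_4d1008_ag.LocallyNondegenerate

/-- `E` is a number field, or a finite separable extension of the rational function field `κ(s)` over a
finite field `κ`. -/
def IsGlobalField (E : Type) [Field E] : Prop :=
  NumberField E ∨ ∃ (κ : Type) (_ : Field κ) (_ : Finite κ) (_ : Algebra κ E) (s : E),
    Transcendental κ s ∧ FiniteDimensional κ⟮s⟯ E ∧ Algebra.IsSeparable κ⟮s⟯ E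

/-- The inertia group of the ideal `𝔓` of the integral closure in `M` of the valuation ring `V` of `E`:
the automorphisms of `M` over `E` which act trivially modulo `𝔓`. -/
def inertiaGroup {E M : Type} [Field E] [Field M] [Algebra E M] (V : ValuationSubring E)
    (𝔓 : Ideal (integralClosure V M)) : Set (M ≃ₐ[E] M) :=
  {g | ∀ o : integralClosure V M, ∃ e ∈ 𝔓, (e : M) = g o - o}

/-- The order of the inertia group of the maximal ideal `𝔓` is divisible by `r ^ i`, where `r` is the
residue characteristic. -/
def ResCharPowDvd {E M : Type} [Field E] [Field M] [Algebra E M] (V : ValuationSubring E)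
    (𝔓 : Ideal (integralClosure V M)) (i : ℕ) : Prop :=
  ∃ r : ℕ, r.Prime ∧ (r : integralClosure V M) ∈ 𝔓 ∧ r ^ i ∣ Nat.card (inertiaGroup V 𝔓)

open Classical in
/-- The initial form of the Laurent polynomial `f`: the sum of the terms of `f` at which the linear
functional `ℓ` is minimal. -/
noncomputable def initialForm {R L : Type} [CommRing R] [AddCommGroup L] (ℓ : L →+ ℤ)
    (f : AddMonoidAlgebra R L) : AddMonoidAlgebra R L :=
  ∑ x ∈ f.coeff.support with ∀ y ∈ f.coeff.support, ℓ x ≤ ℓ y,
    AddMonoidAlgebra.single x (f.coeff x)

/-- The invariant derivation of the torus which multiplies the character `x` by `w x`. -/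
noncomputable def logDeriv {R L : Type} [CommRing R] [AddCommGroup L] (w : L →+ ℤ)
    (f : AddMonoidAlgebra R L) : AddMonoidAlgebra R L :=
  ∑ x ∈ f.coeff.support, AddMonoidAlgebra.single x (((w x : ℤ) : R) * f.coeff x)

/-- The Laurent polynomials `f` are nondegenerate: for every linear functional `ℓ` their initial forms
are independent modulo the square of every prime ideal which contains them (they define a regular
subscheme of codimension `c` of the split torus over the Dedekind ring `R`). -/
def Nondegenerate {R L : Type} [CommRing R] [AddCommGroup L] {c : ℕ}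
    (f : Fin c → AddMonoidAlgebra R L) : Prop :=
  ∀ (ℓ : L →+ ℤ) (Q : Ideal (AddMonoidAlgebra R L)), Q.IsPrime →
    (∀ r, initialForm ℓ (f r) ∈ Q) →
    ∀ d : Fin c → AddMonoidAlgebra R L, ∑ r, d r * initialForm ℓ (f r) ∈ Q ^ 2 → ∀ r, d r ∈ Q

/-- The Laurent polynomials `f` are nondegenerate along the automorphism `g` of the lattice, modulo `𝔓`:
for every functional `ℓ` which is invariant under `g`, at every fixed point of `g` modulo `𝔓` where the
initial forms vanish, some `c` invariant derivations which are given by functionals invariant under `g`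
have a nonzero Jacobian determinant. -/
def NondegenerateAlong {R L : Type} [CommRing R] [AddCommGroup L] {c : ℕ} (𝔓 : Ideal R) (g : L → L)
    (f : Fin c → AddMonoidAlgebra R L) : Prop :=
  ∀ ℓ : L →+ ℤ, (∀ x, ℓ (g x) = ℓ x) → ∀ Q : Ideal (AddMonoidAlgebra R L), Q.IsPrime →
    (∀ a ∈ 𝔓, AddMonoidAlgebra.single 0 a ∈ Q) →
    (∀ x, AddMonoidAlgebra.single x 1 - AddMonoidAlgebra.single (g x) 1 ∈ Q) →
    (∀ r, initialForm ℓ (f r) ∈ Q) →
    ∃ w : Fin c → L →+ ℤ, (∀ i x, w i (g x) = w i x) ∧
      (Matrix.of fun i r => logDeriv (w i) (initialForm ℓ (f r))).det ∉ Q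

/-- `χ` identifies the field `K` with the function field of the closed subvariety of the split torus
over `M` with the group of characters `L` which is defined by the Laurent polynomials `f`. -/
structure IsSubvarietyField {M K L : Type} [Field M] [Field K] [Algebra M K] [AddCommGroup L] {c : ℕ}
    (f : Fin c → AddMonoidAlgebra M L) (χ : L → K) : Prop where
  zero : χ 0 = 1
  add : ∀ x y, χ (x + y) = χ x * χ y
  kernel : ∀ P : AddMonoidAlgebra M L,
    (P.coeff.sum fun x a => algebraMap M K a * χ x) = 0 ↔ P ∈ Ideal.span (Set.range f)
  generate : IntermediateField.adjoin M (Set.range χ) = ⊤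

/-- The subvariety is not a translate of a subtorus: some characters, no two of which are proportional
on the subvariety, are linearly dependent on it. -/
def NotTranslatedTorus (M : Type) {K L : Type} [Field M] [Field K] [Algebra M K] [AddCommGroup L]
    (χ : L → K) : Prop :=
  ∃ S : Finset L, (∀ x ∈ S, ∀ y ∈ S, x ≠ y → ∀ a : M, χ x ≠ algebraMap M K a * χ y) ∧
    ¬ LinearIndependent M (fun x : S => χ x)

/-- The Laurent polynomials `f` over `M` have coefficients in the ring `O`, over which they are
nondegenerate. -/
def NondegenerateOver (O : Type) {M L : Type} [CommRing O] [Field M] [Algebra O M] [AddCommGroup L]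
    {c : ℕ} (f : Fin c → AddMonoidAlgebra M L) : Prop :=
  ∃ f' : Fin c → AddMonoidAlgebra O L,
    (∀ r, AddMonoidAlgebra.mapRingHom L (algebraMap O M) (f' r) = f r) ∧ Nondegenerate f'

/-- The group acts on the characters `χ` up to factors which are integral over `V`, the automorphisms of
the order of the residue characteristic in the inertia groups permute the characters `χ`, and the Laurent
polynomials `f` are nondegenerate along them. -/
def ActsIntegrally {E M K L : Type} [Field E] [Field M] [Field K] [Algebra E M] [Algebra M K]
    [Algebra E K] [AddCommGroup L] [SMul (M ≃ₐ[E] M) L] (ρ : (M ≃ₐ[E] M) →* (K ≃ₐ[E] K)) (χ : L → K)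
    (V : ValuationSubring E) {c : ℕ} (f : Fin c → AddMonoidAlgebra (integralClosure V M) L) : Prop :=
  (∀ g x, ∃ u : integralClosure V M, ρ g (χ x) = algebraMap M K u * χ (g • x)) ∧
    ∀ (𝔓 : Ideal (integralClosure V M)) (r : ℕ) (g : M ≃ₐ[E] M), 𝔓.IsMaximal → r.Prime →
      (r : integralClosure V M) ∈ 𝔓 → g ∈ inertiaGroup V 𝔓 → orderOf g = r →
      (∀ x, ρ g (χ x) = χ (g • x)) ∧ NondegenerateAlong 𝔓 (fun x : L => g • x) f

/-- The characters `χ` and `χ'` are the same, up to multiplication by constants. -/
def SameUpToConstants (M : Type) {K L L' : Type} [Field M] [Field K] [Algebra M K]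
    (χ : L → K) (χ' : L' → K) : Prop :=
  (∀ x, ∃ y, ∃ a : M, χ x = algebraMap M K a * χ' y) ∧
    (∀ y, ∃ x, ∃ a : M, χ' y = algebraMap M K a * χ x)

/-- The variety with the function field `K` over `M`, with the characters `χ`, is nondegenerate at the
valuation ring `V`. -/
def NondegenerateAt {E M K L : Type} [Field E] [Field M] [Field K] [Algebra E M] [Algebra M K]
    [Algebra E K] (ρ : (M ≃ₐ[E] M) →* (K ≃ₐ[E] K)) (χ : L → K) (V : ValuationSubring E) : Prop :=
  ∃ (L' : Type) (_ : AddCommGroup L') (_ : Module.Free ℤ L') (_ : Module.Finite ℤ L')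
    (_ : DistribMulAction (M ≃ₐ[E] M) L') (χ' : L' → K) (c : ℕ)
    (f : Fin c → AddMonoidAlgebra (integralClosure V M) L'),
    SameUpToConstants M χ χ' ∧
    IsSubvarietyField (fun r => AddMonoidAlgebra.mapRingHom L'
      (algebraMap (integralClosure V M) M) (f r)) χ' ∧
    Nondegenerate f ∧ ActsIntegrally ρ χ' V f

/-- `ρ` is a semilinear action on `K` of the Galois group of `M` over `E`, with the fixed field `F`. -/
structure IsDescent {E M K : Type} (F : Type) [Field E] [Field M] [Field F] [Field K] [Algebra E M]
    [Algebra M K] [Algebra E K] [Algebra F K] (ρ : (M ≃ₐ[E] M) →* (K ≃ₐ[E] K)) : Prop where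
  semilinear : ∀ g c, ρ g (algebraMap M K c) = algebraMap M K (g c)
  fixed : ∀ y, (∀ g, ρ g y = y) ↔ ∃ z : F, algebraMap F K z = y

theorem result :
    ∀ (E M : Type) [Field E] [Field M] [Algebra E M] [FiniteDimensional E M] [IsGalois E M],
      IsGlobalField E →
      -- the wild inertia groups have order at most the residue characteristic
      (∀ V : ValuationSubring E, V ≠ ⊤ → ∀ 𝔓 : Ideal (integralClosure V M), 𝔓.IsMaximal →
        ¬ ResCharPowDvd V 𝔓 2) →
      ∀ (L : Type) [AddCommGroup L] [Module.Free ℤ L] [Module.Finite ℤ L]
      [DistribMulAction (M ≃ₐ[E] M) L]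
      -- the function field `K` of the subvariety over `M`, and the function field `F` over `E`
      (F K : Type) [Field F] [Field K] [Algebra E F] [Algebra M K] [Algebra E K]
      [IsScalarTower E M K] [Algebra F K] [IsScalarTower E F K]
      (c : ℕ) (f : Fin c → AddMonoidAlgebra M L) (χ : L → K), IsSubvarietyField f χ →
      NotTranslatedTorus M χ →
      ∀ (ρ : (M ≃ₐ[E] M) →* (K ≃ₐ[E] K)), IsDescent F ρ →
      (∀ g x, ∃ a : M, ρ g (χ x) = algebraMap M K a * χ (g • x)) →
      -- the Laurent polynomials are nondegenerate over almost all the valuation rings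
      {V : ValuationSubring E | V ≠ ⊤ ∧ ¬ NondegenerateOver (integralClosure V M) f}.Finite →
      -- and the variety is nondegenerate at all the valuation rings
      (∀ V : ValuationSubring E, V ≠ ⊤ → NondegenerateAt ρ χ V) →
      -- every integral scheme of finite type over the integers with the function field `F`
      ∀ (Y : Scheme.{0}) (_ : IsIntegral Y) (s : Y ⟶ Spec (CommRingCat.of ℤ)),
      LocallyOfFiniteType s → QuasiCompact s → Nonempty (Y.functionField ≃+* F) →
      ∃ (X' : Scheme.{0}) (_ : IsIntegral X') (g : X' ⟶ Spec (CommRingCat.of ℤ)),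
        IsProper g ∧
        (∀ x : X',
          (((Module.finrank (IsLocalRing.ResidueField (X'.presheaf.stalk x))
              (IsLocalRing.CotangentSpace (X'.presheaf.stalk x)) : ℕ∞)) : WithBot ℕ∞)
            = ringKrullDim (X'.presheaf.stalk x)) ∧
        Nonempty (X'.functionField ≃+* Y.functionField) := by
  intro E M _ _ _ _ _ hE hin L _ _ _ _ F K _ _ _ _ _ _ _ _ c f χ hχ _ ρ ⟨hρ, hfix⟩ hact hgen hloc
    Y _ s' _ _ ⟨i⟩
  let D₀ : Pool.Agent.T9h3.R.CHL E M K := ⟨L, inferInstance, inferInstance, inferInstance,
    inferInstance, χ, hχ.zero, hχ.add⟩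
  refine Pool.Agent.T9h3.R.loc_globW (D₀ := D₀) (f₀ := f) hE hρ hfix hχ.generate hact
    hχ.kernel hgen (fun V hV hVB => ?_) (fun V hV => ?_) Y inferInstance s' inferInstance
    inferInstance ⟨i⟩
  · by_contra hcon
    exact hVB ⟨hV, hcon⟩
  · obtain ⟨L', _, _, _, _, χ', c', f', ⟨h1, h2⟩, h3, h4, h5, h6⟩ := hloc V hV
    intro k _ _ _ _ _ _ _ 𝔭 hVP hfin
    refine Pool.Agent.T9h3.R.LOC_ofW hVP hfin hρ hfix
      (fun 𝔓 h𝔓 p hp hp𝔓 hd => hin V hV 𝔓 h𝔓 ⟨p, hp, hp𝔓, hd⟩) hχ.generate
      (D := ⟨L', inferInstance, inferInstance, inferInstance, inferInstance, χ', h3.zero, h3.add⟩)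
      (f := f') ⟨h3.zero, h3.add, h3.kernel, h4, h5, ?_, ⟨ρ, hρ, ?_⟩, ?_⟩ h2 h1
    · rintro 𝔓 p g ⟨h𝔓, hp, hp𝔓, hg, ho⟩ ℓ hℓ Q hQ hQ𝔓 hQx hQf
      obtain ⟨w, hw1, hw2⟩ := (h6 𝔓 p g h𝔓 hp hp𝔓 hg ho).2 ℓ hℓ Q hQ hQ𝔓 hQx hQf
      refine ⟨fun i => (w i).toIntLinearMap, hw1, ?_⟩
      have h8 : (Matrix.of fun i r => Pool.Agent.T9h3.H.Dw (w i).toIntLinearMap
          (Pool.Agent.T9h3.H.ini ℓ (f' r))) =
          Matrix.of fun i r => logDeriv (w i) (initialForm ℓ (f' r)) := by
        ext1 i r
        exact Pool.Agent.T9h3.H.Dw_eq _ _
      rw [h8]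
      exact hw2
    · rintro 𝔓 p g ⟨h𝔓, hp, hp𝔓, hg, ho⟩ x
      exact (h6 𝔓 p g h𝔓 hp hp𝔓 hg ho).1 x
    · rintro 𝔓 p g ⟨h𝔓, hp, hp𝔓, hg, ho⟩ l - x
      refine ⟨0, Ideal.zero_mem _, ?_⟩
      rw [add_zero, map_one, map_one, one_mul]
      exact (h6 𝔓 p g h𝔓 hp hp𝔓 hg ho).1 x

end Pool.Agent.Results.MP_4d1008_ag.LocallyNondegenerate
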