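import Pool.Agent.T9h3.LN.All2
import Pool.Agent.T9h8.LN.Lat0
import Pool.Agent.T9h8.LN.Tr2
import Pool.Agent.T9h22.LN.Glo2
import Pool.Agent.T9h22.LN.Glo
import Pool.Agent.T9h22.LN.Lat
import Pool.Agent.T9h22.LN.Val
import Pool.Agent.T9h31.LN.Tame
import Pool.Agent.T9h35.LN.Svr
import Pool.Agent.T9h41.LN.Loc
import Pool.Agent.T9h46.LN.Appr
import Pool.Agent.T9h67.LN.Split
import Pool.Agent.T9h77.LN.Loc3
import Pool.Agent.T9h83.LN.Base
import Pool.Agent.T9h89.LN.H90
import Pool.Agent.T9h89.LN.LocD

/-!
MP_4d1008_ag: resolution, in every dimension, of schemes birational to torsors under algebraic tori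
over global fields, with wild ramification.

Let `E` be a global field (a number field, or the function field of a curve over a finite field), let
`T` be a torus over `E`, split by the finite Galois extension `M`, such that no inertia group of `M`
over `E` has order divisible by the square of the residue characteristic (so the wild inertia groups
have prime order or are trivial), and let `X` be a torsor under `T`, for example the variety of the
elements of `M` with the norm `a`, where `a` is a nonzero element of `E`. In general `X` has no rational
point, and it is in general not a rational variety even if it has one.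

The theorem: suppose that, at each place `V` of `E` where `M` is wildly ramified, with the residue
characteristic `r`,
* the order of the decomposition group is not divisible by `r ^ 2`, or
* the class of `X` in the cohomology of the torus over the completion has an order which is prime to
  `r` (for example, `X` is trivial at `V`, or it has a point over an extension of degree prime to `r`), or
* `X` is nearly trivial at `V`.
Then every integral scheme of finite type over the integers with the
function field of `X` has a regular proper model. There is no condition at the other places, in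
particular none at the tamely ramified ones; and if the degree of `M` over `E` is squarefree, then there
is no condition at all: the theorem holds for all the torsors under all the tori split by `M`, for
example for all the equations `N(x) = a`, where `N` is the norm of a subfield of `M`, and for systems of
such equations. (For a cyclic extension of prime degree, the variety `N(x) = a` is birational to a
Severi-Brauer variety, which has a regular model by a theorem of M. Artin.)

Here `X` is nearly trivial at the place `V` if it has good reduction over `M` and if
this is close to the trivial torsor along the wild inertia: for `g` of order `r` (the residue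
characteristic) with `g = 1` modulo `𝔓 ^ (l + 1)`, the action of `g` is the one on the torus modulo
`𝔓 ^ (r * l)`.

The function field of `X` is given as the field `F` of the invariants of `G = Gal(M/E)` in the field
`K` of the rational functions of the split torus over `M` with the group of characters `L` (by
Hilbert 90, the torsor is trivial over `M`), for a semilinear action of `G` on `K` which maps the
characters to multiples of characters.

The proof: at a place `V` where `M` is tamely ramified, the lattice `L` is extended by the valuations of
the constants, and `X` becomes a nondegenerate complete intersection in a torus of larger dimension,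
which has an action of `G` up to units. At a place where `M` is wildly ramified, the weighted blowups of
the torus are constructed for the action of `G` on the torus; a theorem on the norms of units shows that
they are permuted by the given action too, and the leading forms of the wildly ramified elements have no
zeros, although they can be different from those on the torus. The
polytopes at the different places are obtained from one polytope in the fibre product of all the
lattices, and so the models at the different places have a common linear system on the generic fibre;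
the model is obtained by gluing lattices over the rings of the places.

For the torsors with bad reduction over `M` at a wildly ramified place with decomposition group `D`, whose
order is not divisible by `r ^ 2`: the
wild inertia group `W` of order `r` is a normal Sylow subgroup of `D`. The class of the torsor in the
cohomology of `W` becomes trivial modulo the `(r * l)`-th unit group: by a classification of the
`W`-lattices up to extensions, this follows from Hilbert 90 for the characters invariant under `W` and
from the computation of the norms of units for the others. Over a tamely ramified extension `M'` of `M` of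
large ramification, the obstructions from `D / W` to good reduction vanish, and the averages over the
cosets of `W` give a good reduction of the torsor over `M'` which is nearly trivial; these are spread to all
the places of `M'` by weak approximation, and the theorem above applies to the torus over `M'`, with the
polytopes over `M`. For the classes of order `d` prime to `r`, the extension `M'` is such that the
valuations of the constants become divisible by `d`.

(The cohomological lemmas were written by helpers 8, 22, 31, 35, 41, 46, 67, 77, 83 and 89 of the team.)
-/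

set_option autoImplicit false

open AlgebraicGeometry CategoryTheory CategoryTheory.Limits

open scoped IntermediateField

namespace Pool.Agent.Results.MP_4d1008_ag.TorsorsUnderTori

/-- `E` is a number field, or a finite separable extension of the rational function field `κ(s)` over a
finite field `κ`. -/
def IsGlobalField (E : Type) [Field E] : Prop :=
  NumberField E ∨ ∃ (κ : Type) (_ : Field κ) (_ : Finite κ) (_ : Algebra κ E) (s : E),
    Transcendental κ s ∧ FiniteDimensional κ⟮s⟯ E ∧ Algebra.IsSeparable κ⟮s⟯ E

/-- The inertia group of the ideal `𝔓` of the integral closure in `M` of the valuation ring `V` of `E`: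
the automorphisms of `M` over `E` which act trivially modulo `𝔓`. -/
def inertiaGroup {E M : Type} [Field E] [Field M] [Algebra E M] (V : ValuationSubring E)
    (𝔓 : Ideal (integralClosure V M)) : Set (M ≃ₐ[E] M) :=
  {g | ∀ o : integralClosure V M, ∃ e ∈ 𝔓, (e : M) = g o - o}

/-- For some maximal ideal of the integral closure of `V` in `M`, the order of the inertia group is
divisible by `r ^ i`, where `r` is the residue characteristic. -/
def ResCharPowDvd {E : Type} (M : Type) [Field E] [Field M] [Algebra E M] (V : ValuationSubring E)
    (i : ℕ) : Prop :=
  ∃ (𝔓 : Ideal (integralClosure V M)) (r : ℕ), 𝔓.IsMaximal ∧ r.Prime ∧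
    (r : integralClosure V M) ∈ 𝔓 ∧ r ^ i ∣ Nat.card (inertiaGroup V 𝔓)

/-- The decomposition group of the ideal `𝔓` of the integral closure in `M` of the valuation ring `V` of
`E`: the automorphisms of `M` over `E` which map `𝔓` to itself. -/
def decompositionGroup {E M : Type} [Field E] [Field M] [Algebra E M] (V : ValuationSubring E)
    (𝔓 : Ideal (integralClosure V M)) : Set (M ≃ₐ[E] M) :=
  {g | ∀ o ∈ 𝔓, ∃ e ∈ 𝔓, (e : M) = g o}

/-- The orders of the decomposition groups of the maximal ideals of the integral closure of `V` in `M` are
not divisible by `r ^ 2`, where `r` is the residue characteristic. -/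
def HasSmallDecomposition {E : Type} (M : Type) [Field E] [Field M] [Algebra E M]
    (V : ValuationSubring E) : Prop :=
  ∀ (𝔓 : Ideal (integralClosure V M)) (r : ℕ), 𝔓.IsMaximal → r.Prime →
    (r : integralClosure V M) ∈ 𝔓 → ¬ r ^ 2 ∣ Nat.card (decompositionGroup V 𝔓)

/-- `χ` identifies the field `K` with the field of the rational functions of the split torus over `M`
with the group of characters `L`, and the semilinear action `ρ` maps the characters to multiples of
characters: `K` with the action is the function field over `M` of a torsor under the torus with the
character module `L`. -/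
structure IsTorsorField {E M K L : Type} [Field E] [Field M] [Field K] [Algebra E M] [Algebra M K]
    [Algebra E K] [AddCommGroup L] [DistribMulAction (M ≃ₐ[E] M) L]
    (ρ : (M ≃ₐ[E] M) →* (K ≃ₐ[E] K)) (χ : L → K) : Prop where
  zero : χ 0 = 1
  add : ∀ x y, χ (x + y) = χ x * χ y
  indep : LinearIndependent M χ
  generate : IntermediateField.adjoin M (Set.range χ) = ⊤
  semilinear : ∀ g c, ρ g (algebraMap M K c) = algebraMap M K (g c)
  act : ∀ g x, ∃ c : M, ρ g (χ x) = algebraMap M K c * χ (g • x)

/-- The function `a` is a homomorphism from the lattice `L` to the multiplicative group of `M`. -/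
def IsMultiplicative {M L : Type} [Field M] [AddCommGroup L] (a : L → M) : Prop :=
  a 0 = 1 ∧ ∀ x y, a (x + y) = a x * a y

/-- For the characters `a(x) χ(x)`, the automorphism `ρ g` maps the one of `x` to the multiple by `u` of
the one of `g x`. -/
def HasFactor {E M K L : Type} [Field E] [Field M] [Field K] [Algebra E M] [Algebra M K]
    [Algebra E K] [SMul (M ≃ₐ[E] M) L] (ρ : (M ≃ₐ[E] M) →* (K ≃ₐ[E] K)) (χ : L → K) (a : L → M)
    (g : M ≃ₐ[E] M) (x : L) (u : M) : Prop :=
  ρ g (algebraMap M K (a x) * χ x) = algebraMap M K u * (algebraMap M K (a (g • x)) * χ (g • x))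

/-- The torsor is trivial at the valuation ring `V`: for every nonzero `r` in `V`, the characters can be
multiplied by constants in such a way that the action `ρ` on the characters is congruent modulo `r` to
the action on the characters of the torus. -/
def TrivialAt {E M K L : Type} [Field E] [Field M] [Field K] [Algebra E M] [Algebra M K]
    [Algebra E K] [AddCommGroup L] [SMul (M ≃ₐ[E] M) L]
    (ρ : (M ≃ₐ[E] M) →* (K ≃ₐ[E] K)) (χ : L → K) (V : ValuationSubring E) : Prop :=
  ∀ r : V, r ≠ 0 → ∃ a : L → M, IsMultiplicative a ∧
    ∀ g x, ∃ e : integralClosure V M, HasFactor ρ χ a g x (1 + algebraMap E M r * e)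

/-- The order of the class of the torsor at the valuation ring `V` is prime to the residue characteristic:
for some integer `d` which is invertible in `V`, the quotient of the torsor by the `d`-torsion of the torus
(with the characters `χ(d x)`) is trivial at `V`. -/
def HasPrimeToOrderAt {E M K L : Type} [Field E] [Field M] [Field K] [Algebra E M] [Algebra M K]
    [Algebra E K] [AddCommGroup L] [SMul (M ≃ₐ[E] M) L]
    (ρ : (M ≃ₐ[E] M) →* (K ≃ₐ[E] K)) (χ : L → K) (V : ValuationSubring E) : Prop :=
  ∃ d : ℕ, IsUnit (d : V) ∧ TrivialAt ρ (fun x => χ (d • x)) V

/-- On the characters `a(x) χ(x)`, the automorphism `ρ g` agrees modulo the ideal `I` with the action of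
`g` on the characters of the torus. -/
def CongruentModulo {E M K L : Type} [Field E] [Field M] [Field K] [Algebra E M] [Algebra M K]
    [Algebra E K] [SMul (M ≃ₐ[E] M) L] (ρ : (M ≃ₐ[E] M) →* (K ≃ₐ[E] K)) (χ : L → K) (a : L → M)
    {V : ValuationSubring E} (I : Ideal (integralClosure V M)) (g : M ≃ₐ[E] M) : Prop :=
  ∀ x, ∃ e ∈ I, HasFactor ρ χ a g x (1 + e)

/-- The automorphism `g` has prime order `r`, where `r` is the residue characteristic of `𝔓`, and it acts
trivially modulo `𝔓 ^ (l + 1)`. -/
def IsWild {E M : Type} [Field E] [Field M] [Algebra E M] {V : ValuationSubring E}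
    (𝔓 : Ideal (integralClosure V M)) (r l : ℕ) (g : M ≃ₐ[E] M) : Prop :=
  𝔓.IsMaximal ∧ r.Prime ∧ (r : integralClosure V M) ∈ 𝔓 ∧ orderOf g = r ∧
    g ∈ inertiaGroup V (𝔓 ^ (l + 1))

/-- The torsor is nearly trivial at the valuation ring `V`: the characters can be multiplied by constants
in such a way that the action `ρ` agrees with the action on the characters of the torus up to factors
which are integral over `V` (so the torsor has good reduction over `M`), and, for the automorphisms `g` of
order `r`, where `r` is the residue characteristic and `g` acts trivially modulo `𝔓 ^ (l + 1)`, up to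
factors which are congruent to `1` modulo `𝔓 ^ (r * l)`. -/
def NearlyTrivialAt {E M K L : Type} [Field E] [Field M] [Field K] [Algebra E M] [Algebra M K]
    [Algebra E K] [AddCommGroup L] [SMul (M ≃ₐ[E] M) L]
    (ρ : (M ≃ₐ[E] M) →* (K ≃ₐ[E] K)) (χ : L → K) (V : ValuationSubring E) : Prop :=
  ∃ a : L → M, IsMultiplicative a ∧
    (∀ g x, ∃ u : integralClosure V M, HasFactor ρ χ a g x u) ∧
    ∀ (𝔓 : Ideal (integralClosure V M)) (r l : ℕ) (g : M ≃ₐ[E] M), IsWild 𝔓 r l g →
      CongruentModulo ρ χ a (𝔓 ^ (r * l)) g

theorem result :
    ∀ (E M : Type) [Field E] [Field M] [Algebra E M] [FiniteDimensional E M] [IsGalois E M],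
      IsGlobalField E →
      -- the wild inertia groups have order at most the residue characteristic
      (∀ V : ValuationSubring E, V ≠ ⊤ → ¬ ResCharPowDvd M V 2) →
      -- the character module of a torus over `E`
      ∀ (L : Type) [AddCommGroup L] [Module.Free ℤ L] [Module.Finite ℤ L]
      [DistribMulAction (M ≃ₐ[E] M) L]
      -- the function field `K` of a torsor over `M`, and the function field `F` over `E`
      (F K : Type) [Field F] [Field K] [Algebra E F] [Algebra M K] [Algebra E K]
      [IsScalarTower E M K] [Algebra F K] [IsScalarTower E F K]
      (ρ : (M ≃ₐ[E] M) →* (K ≃ₐ[E] K)) (χ : L → K), IsTorsorField ρ χ →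
      (∀ y, (∀ g, ρ g y = y) ↔ ∃ f : F, algebraMap F K f = y) →
      -- where the extension is wildly ramified, the order of the decomposition group is not divisible
      -- by the square of the residue characteristic, or the order of the class of the torsor is prime
      -- to the residue characteristic, or the torsor is nearly trivial
      (∀ V : ValuationSubring E, V ≠ ⊤ → ResCharPowDvd M V 1 →
        HasSmallDecomposition M V ∨ HasPrimeToOrderAt ρ χ V ∨ NearlyTrivialAt ρ χ V) →
      -- every integral scheme of finite type over the integers with the function field `F`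
      ∀ (Y : Scheme.{0}) (_ : IsIntegral Y) (s : Y ⟶ Spec (CommRingCat.of ℤ)),
      LocallyOfFiniteType s → QuasiCompact s → Nonempty (Y.functionField ≃+* F) →
      ∃ (X' : Scheme.{0}) (_ : IsIntegral X') (g : X' ⟶ Spec (CommRingCat.of ℤ)),
        IsProper g ∧
        (∀ x : X',
          (((Module.finrank (IsLocalRing.ResidueField (X'.presheaf.stalk x))
              (IsLocalRing.CotangentSpace (X'.presheaf.stalk x)) : ℕ∞)) : WithBot ℕ∞)
            = ringKrullDim (X'.presheaf.stalk x)) ∧
        Nonempty (X'.functionField ≃+* Y.functionField) := by
  intro E M _ _ _ _ _ hE hin L _ _ _ _ F K _ _ _ _ _ _ _ _ ρ χ hχ hfix hw Y _ s _ _ ⟨i⟩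
  let D₀ : Pool.Agent.T9h3.R.CHL E M K := ⟨L, inferInstance, inferInstance, inferInstance,
    inferInstance, χ, hχ.zero, hχ.add⟩
  have hli : LinearIndependent M D₀.χ := hχ.indep
  have hgen : IntermediateField.adjoin M (Set.range D₀.χ) = ⊤ := hχ.generate
  have hs : Pool.Agent.T9h3.R.SML ρ D₀ := hχ.act
  have hin' : ∀ V : ValuationSubring E, V ≠ ⊤ →
      Pool.Agent.T9h3.R.HIN E M (integralClosure V M) := by
    intro V hV 𝔓 h𝔓 p hp hp𝔓 hd
    exact hin V hV ⟨𝔓, p, h𝔓, hp, hp𝔓, hd⟩
  have hw' : ∀ V : ValuationSubring E, V ≠ ⊤ → Pool.Agent.T9h3.R.WRP M V →
      (∀ (𝔓 : Ideal (integralClosure V M)) (r : ℕ), 𝔓.IsMaximal → r.Prime →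
        (r : integralClosure V M) ∈ 𝔓 → ¬ r ^ 2 ∣ Nat.card (Pool.Agent.T9h3.LN.DgS V 𝔓)) ∨
      (∃ d : ℕ, IsUnit (d : V) ∧ Pool.Agent.T9h3.LN.TRD ρ V D₀ d) ∨
      Pool.Agent.T9h3.R.NTR ρ V D₀ := by
    rintro V hV ⟨𝔓, p, g, h𝔓, hp, hp𝔓, hg, ho⟩
    rcases hw V hV ⟨𝔓, p, h𝔓, hp, hp𝔓, by
      rw [pow_one, ← ho]
      exact Subgroup.orderOf_dvd_natCard (Pool.Agent.T9h3.R.InG 𝔓) hg⟩ with h1 | ⟨d, hd, h1⟩ | h1
    · exact Or.inl h1
    · refine Or.inr (Or.inl ⟨d, hd, fun r hr => ?_⟩)
      obtain ⟨a, ⟨ha0, haa⟩, h2⟩ := h1 r hr
      exact ⟨a, ha0, haa, h2⟩
    · obtain ⟨a, ⟨ha0, haa⟩, hun, her⟩ := h1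
      exact Or.inr (Or.inr ⟨a, ha0, haa, hun, fun 𝔓 p g hg l hl x =>
        her 𝔓 p l g ⟨hg.1, hg.2.1, hg.2.2.1, hg.2.2.2.2, hl⟩ x⟩)
  exact Pool.Agent.T9h3.LN.glob_torsor2 (Pool.Agent.T9h22.LN.lat (Pool.Agent.T9h8.LN.lat0
    Pool.Agent.T9h67.LN.split)) Pool.Agent.T9h89.LN.h90 (Pool.Agent.T9h41.LN.loc
    Pool.Agent.T9h8.LN.tr2) Pool.Agent.T9h89.LN.locD Pool.Agent.T9h22.LN.val
    Pool.Agent.T9h31.LN.tame
    (Pool.Agent.T9h22.LN.glo2 (Pool.Agent.T9h22.LN.glo Pool.Agent.T9h46.LN.appr))
    (Pool.Agent.T9h77.LN.loc3 Pool.Agent.T9h35.LN.svr Pool.Agent.T9h83.LN.base) (D₀ := D₀) hE hin'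
    hχ.semilinear hfix hli hgen hs hw' Y inferInstance s inferInstance inferInstance ⟨i⟩

end Pool.Agent.Results.MP_4d1008_ag.TorsorsUnderTori
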